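import Mathlib

/-!
# A quadrinomial `x^364 + x^363 + x^361 + a` with the double root `-19/13`
-/

set_option autoImplicit false

open Polynomial

namespace Pool.Agent.Results.MP_21e947_nt.DoubleRoot364

/-- The quadrinomial `x^n + x^m + x^k + a` over `ℚ`. -/
noncomputable def quad (n m k : ℕ) (a : ℚ) : ℚ[X] := X ^ n + X ^ m + X ^ k + C a

/-- It has a multiple (complex) root. -/
def HasMultipleRoot (p : ℚ[X]) : Prop :=
  ∃ θ : ℂ, 2 ≤ (p.map (algebraMap ℚ ℂ)).rootMultiplicity θ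

theorem quad_ne_zero (n m k : ℕ) (a : ℚ) (hk : 1 ≤ k) (hkm : k < m) (hmn : m < n) : quad n m k a ≠ 0 := by
  intro h
  have h1 : (quad n m k a).coeff n = 0 := by rw [h]; simp
  have e1 : n ≠ m := by omega
  have e2 : n ≠ k := by omega
  have e3 : n ≠ 0 := by omega
  simp only [quad, coeff_add, coeff_X_pow, coeff_C] at h1
  simp [e1, e2, e3] at h1

/-- **Disproof of Q1.** `x^364 + x^363 + x^361 + a` with `a = 31 · 19^361 / 13^364` has the double root `-19/13`,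
and `a ≠ 0, 1`. -/
theorem result :
    (∃ a : ℚ, a = 31 * 19 ^ 361 / 13 ^ 364 ∧ a ≠ 0 ∧ a ≠ 1 ∧
      2 ≤ (quad 364 363 361 a).rootMultiplicity (-(19 / 13)) ∧ HasMultipleRoot (quad 364 363 361 a)) ∧
    ¬ (∀ (a : ℚ) (n m k : ℕ), a ≠ 0 → 1 ≤ k → k < m → m < n → HasMultipleRoot (quad n m k a) →
      a = 1 ∧ ∃ d t u : ℕ, 1 ≤ d ∧ Odd t ∧ Odd u ∧ u < t ∧ n = d * (t + u) ∧ m = d * t ∧ k = d * u) := by
  have main : ∃ a : ℚ, a = 31 * 19 ^ 361 / 13 ^ 364 ∧ a ≠ 0 ∧ a ≠ 1 ∧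
      2 ≤ (quad 364 363 361 a).rootMultiplicity (-(19 / 13)) ∧ HasMultipleRoot (quad 364 363 361 a) := by
    obtain ⟨a, ha⟩ : ∃ a : ℚ, a = 31 * 19 ^ 361 / 13 ^ 364 := ⟨_, rfl⟩
    have h0 : quad 364 363 361 a ≠ 0 := quad_ne_zero _ _ _ _ (by norm_num) (by norm_num) (by norm_num)
    have ha' : a = (19 / 13) ^ 361 * (31 / 2197) := by
      rw [ha, div_pow, show (13 : ℚ) ^ 364 = 13 ^ 361 * 2197 by
        rw [show 364 = 361 + 3 by norm_num, pow_add]; norm_num]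
      field_simp
    have hpos : (71 : ℚ) < (19 / 13) ^ 361 := by
      calc (71 : ℚ) < (19 / 13) ^ 16 := by norm_num
        _ ≤ (19 / 13) ^ 361 := pow_le_pow_right₀ (by norm_num) (by norm_num)
    have ha1 : 1 < a := by
      rw [ha']
      generalize (19 / 13 : ℚ) ^ 361 = z at hpos
      linarith
    refine ⟨a, ha, by linarith, by linarith, ?_⟩
    clear ha hpos ha1
    have hodd : (-(19 / 13 : ℚ)) ^ 361 = -(19 / 13) ^ 361 := Odd.neg_pow (by decide) _
    have e364 : (-(19 / 13 : ℚ)) ^ 364 = (-(19 / 13)) ^ 361 * (-(19 / 13)) ^ 3 := by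
      rw [← pow_add]
    have e363 : (-(19 / 13 : ℚ)) ^ 363 = (-(19 / 13)) ^ 361 * (-(19 / 13)) ^ 2 := by
      rw [← pow_add]
    have hr : (quad 364 363 361 a).IsRoot (-(19 / 13)) := by
      simp only [quad, IsRoot.def, eval_add, eval_pow, eval_X, eval_C]
      rw [e364, e363, hodd, ha']
      generalize (19 / 13 : ℚ) ^ 361 = z
      ring
    have hd : (derivative (quad 364 363 361 a)).IsRoot (-(19 / 13)) := by
      simp only [quad, IsRoot.def, derivative_add, derivative_X_pow, derivative_C, eval_add, eval_mul, eval_pow,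
        eval_X, eval_C, add_zero]
      show _ * (-(19 / 13 : ℚ)) ^ 363 + _ * (-(19 / 13 : ℚ)) ^ 362 + _ * (-(19 / 13 : ℚ)) ^ 360 = 0
      have e363' : (-(19 / 13 : ℚ)) ^ 363 = (-(19 / 13)) ^ 360 * (-(19 / 13)) ^ 3 := by
        rw [← pow_add]
      have e362' : (-(19 / 13 : ℚ)) ^ 362 = (-(19 / 13)) ^ 360 * (-(19 / 13)) ^ 2 := by
        rw [← pow_add]
      rw [e363', e362']
      push_cast
      generalize (-(19 / 13 : ℚ)) ^ 360 = z
      ring
    have h2 : 2 ≤ (quad 364 363 361 a).rootMultiplicity (-(19 / 13)) :=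
      (one_lt_rootMultiplicity_iff_isRoot h0).2 ⟨hr, hd⟩
    refine ⟨h2, ((-(19 / 13) : ℚ) : ℂ), ?_⟩
    have h3 := le_rootMultiplicity_map (f := algebraMap ℚ ℂ)
      (p := quad 364 363 361 a) ((Polynomial.map_ne_zero_iff (algebraMap ℚ ℂ).injective).2 h0) (-(19 / 13))
    exact h2.trans h3
  refine ⟨main, fun h => ?_⟩
  obtain ⟨a, _, h0, h1, _, hm⟩ := main
  exact h1 (h a 364 363 361 h0 (by norm_num) (by norm_num) (by norm_num) hm).1

end Pool.Agent.Results.MP_21e947_nt.DoubleRoot364
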